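import Pool.Agent.H852PC.Defs
import Pool.Agent.H852PC.Psl
import Pool.Agent.H852PC.Basis
import Pool.Agent.H852PC.Rel
import Pool.Agent.H852PC.JTr
import Pool.Agent.H852PC.JAn
import Pool.Agent.H852PC.JFr
import Pool.Agent.H852PC.JTo
import Pool.Agent.H852PC.JPd
import Pool.Agent.H852PC.JCp
import Pool.Agent.H852PC.JNa
import Pool.Agent.H852PC.JNb
import Pool.Agent.H852PC.JN7
import Pool.Agent.H852PC.JN17
import Pool.Agent.H852PC.JNd
import Pool.Agent.H852PC.JIx
import Pool.Agent.H852PC.JAr
import Pool.Agent.H852PC.JTi
import Pool.Agent.H852PC.JSc1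
import Pool.Agent.H852PC.JSc2
import Pool.Agent.H852PC.JSc3
import Pool.Agent.H852PC.JLa
import Pool.Agent.H852PC.JDb
import Pool.Agent.H852PC.JUq
import Pool.Agent.H852PC.JGr
import Pool.Agent.H852PC.JSa

/-!
# The pair correlation of an arithmetic surface without isometries need not be Poissonian

There is a torsion-free cocompact arithmetic Fuchsian group `Γ` with `N(Γ) = Γ`, so that the closed
hyperbolic surface `X = Γ \ ℍ` has no orientation-preserving isometry, such that a positive proportion
of the eigenvalues of `X` is multiple. Therefore the pair correlation of `X` is not Poissonian.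

The group consists of the norm-one units of an order of the quaternion algebra `(5, 13)` over `ℚ`
whose images in the Hamilton quaternions modulo `7` and modulo `17` permute the axes `±i`, `±j`, `±k`.
The multiplicities are forced by a Hecke correspondence at the prime `17`: it maps the eigenfunctions
of the surface `Λ \ ℍ`, where `Λ ≥ Γ` is the group of all norm-one units, to eigenfunctions of `X`
which do not come from `Λ \ ℍ`.

Parts of the proof are by helper828, helper38, helper210, helper615, helper877, helper547, helper232,
helper36, helper202, helper496, helper31, helper76, helper285, helper13, helper886, helper480,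
helper525, helper735, helper734, helper933, helper670, helper967, helper89.
-/

set_option autoImplicit false

open scoped MatrixGroups UpperHalfPlane Topology
open Filter
open Pool.Agent.H852PC

namespace Pool.Agent.Results.MP_7a2702_mp.PoissonFails

theorem result :
    ∃ Γ : Subgroup PSL(2, ℝ),
      IsCocompactArithmetic Γ ∧
      (∀ g ∈ Γ, IsOfFinOrder g → g = 1) ∧
      Subgroup.normalizer (Γ : Set PSL(2, ℝ)) = Γ ∧
      (∃ lam, IsSpectrum (lift Γ) lam) ∧
      ∀ lam, IsSpectrum (lift Γ) lam →
        (∃ c : ℝ, 0 < c ∧ ∀ᶠ N : ℕ in atTop, c ≤ R2 lam N 0 0) ∧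
        ¬ IsPoissonian (unfolded (lift Γ) lam) := by
  have hconst : SConst := pf_sc3 (fun f hf h s g hg z => pf_sc1 f hf h s g hg z)
    (fun f hf X h1 h2 h z => pf_sc2 f hf X h1 h2 h z)
  exact final (pf_fr pf_tr) (pf_to pf_tr pf_an) pf_pd (pf_cp pf_an)
    (norm_of pf_na pf_nb (pf_nd pf_n7 pf_n17)) (pf_ar pf_ix) (pf_db pf_ti pf_re hconst pf_la) pf_uq
    (pf_sa (bs_main (pf_gr bs_cvm)))

end Pool.Agent.Results.MP_7a2702_mp.PoissonFails
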